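import Mathlib

set_option autoImplicit false

/-!
# Finite semigroups and graphs defined by finite automata
-/

namespace Pool.Agent.ExpRam

section Semi

variable {N : Type} [Monoid N] [Finite N]

theorem exists_pow_idem : ∃ K : ℕ, 0 < K ∧ ∀ g : N, g ^ K * g ^ K = g ^ K := by
  classical
  have := Fintype.ofFinite N
  set c := Fintype.card N with hc
  refine ⟨c.factorial, Nat.factorial_pos _, fun g => ?_⟩
  have h1 : Fintype.card N < Fintype.card (Fin (c + 1)) := by simp [← hc]
  obtain ⟨i, j, hij, h2⟩ := Fintype.exists_ne_map_eq_of_card_lt (fun i : Fin (c + 1) => g ^ (i : ℕ)) h1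
  wlog hlt : i < j generalizing i j with H
  · exact H j i hij.symm h2.symm (lt_of_le_of_ne (not_lt.1 hlt) hij.symm)
  have h2 : g ^ (i : ℕ) = g ^ (j : ℕ) := h2
  have hij' : (i : ℕ) < j := hlt
  set d := (j : ℕ) - i with hd
  have hdpos : 0 < d := by omega
  have hjc : (j : ℕ) ≤ c := Nat.lt_succ_iff.1 j.2
  have hper : ∀ t, (i : ℕ) ≤ t → g ^ (t + d) = g ^ t := by
    intro t ht
    obtain ⟨s, rfl⟩ := Nat.exists_eq_add_of_le ht
    have : (i : ℕ) + s + d = j + s := by omega
    rw [this, pow_add, pow_add, ← h2]
  have hper2 : ∀ a t, (i : ℕ) ≤ t → g ^ (t + a * d) = g ^ t := by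
    intro a
    induction a with
    | zero => intro t _; simp
    | succ a ih =>
        intro t ht
        have : t + (a + 1) * d = (t + a * d) + d := by ring
        rw [this, hper _ (by omega), ih t ht]
  have hdvd : d ∣ c.factorial := Nat.dvd_factorial hdpos (by omega)
  obtain ⟨a, ha⟩ := hdvd
  have hge : (i : ℕ) ≤ c.factorial := by
    have := Nat.self_le_factorial c
    omega
  rw [← pow_add]
  have : c.factorial + c.factorial = c.factorial + a * d := by
    conv_lhs => rw [ha]
    rw [ha]; ring
  rw [this, hper2 a _ hge]

theorem exists_min_idem {K : ℕ} (hK : 0 < K) (hidem : ∀ g : N, g ^ K * g ^ K = g ^ K)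
    {R : Set N} (hne : R.Nonempty) (hmul : ∀ x ∈ R, ∀ y ∈ R, x * y ∈ R) :
    ∃ g ∈ R, g * g = g ∧ ∀ z ∈ R, (g * z * g) ^ K = g := by
  classical
  have hpow : ∀ x ∈ R, ∀ n, 0 < n → x ^ n ∈ R := by
    intro x hx n hn
    induction n with
    | zero => omega
    | succ n ih =>
        rcases Nat.eq_zero_or_pos n with h | h
        · subst h; simpa using hx
        · rw [pow_succ]; exact hmul _ (ih h) _ hx
  let F : N → Set N := fun x => (fun r => r * x) '' R
  obtain ⟨x, hx, hmin⟩ := Set.exists_min_image R (fun x => (F x).ncard) R.toFinite hne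
  set y := x * x with hy
  have hyR : y ∈ R := hmul x hx x hx
  set g := y ^ K with hg
  have hgR : g ∈ R := hpow y hyR K hK
  have hgg : g * g = g := hidem y
  -- `g = r * x` with `r ∈ R`
  obtain ⟨r, hr, hgr⟩ : ∃ r ∈ R, g = r * x := by
    obtain ⟨K', rfl⟩ : ∃ K', K = K' + 1 := ⟨K - 1, by omega⟩
    rcases Nat.eq_zero_or_pos K' with h | h
    · subst h
      exact ⟨x, hx, by rw [hg, hy]; simp⟩
    · refine ⟨y ^ K' * x, hmul _ (hpow y hyR K' h) _ hx, ?_⟩
      rw [hg, pow_succ, hy, mul_assoc]
  have hFgx : F g ⊆ F x := by
    rintro _ ⟨s, hs, rfl⟩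
    exact ⟨s * r, hmul s hs r hr, by simp only; rw [hgr, mul_assoc]⟩
  have hmin' : ∀ z ∈ R, F z ⊆ F g → F z = F g := by
    intro z hz hsub
    apply Set.eq_of_subset_of_ncard_le hsub
    calc (F g).ncard ≤ (F x).ncard := Set.ncard_le_ncard hFgx
      _ ≤ (F z).ncard := hmin z hz
  have hleft : ∀ z ∈ R, ∃ t ∈ R, t * (g * z * g) = g := by
    intro z hz
    have hu : g * z * g ∈ R := hmul _ (hmul g hgR z hz) g hgR
    have hsub : F (g * z * g) ⊆ F g := by
      rintro _ ⟨s, hs, rfl⟩
      exact ⟨s * (g * z), hmul s hs _ (hmul g hgR z hz), by simp only [mul_assoc]⟩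
    have heq := hmin' _ hu hsub
    have hgF : g ∈ F g := ⟨g, hgR, hgg⟩
    rw [← heq] at hgF
    obtain ⟨t, ht, h⟩ := hgF
    exact ⟨t, ht, h⟩
  refine ⟨g, hgR, hgg, fun z hz => ?_⟩
  set u := g * z * g with hu
  set f := u ^ K with hf
  have huR : u ∈ R := hmul _ (hmul g hgR z hz) g hgR
  have hfR : f ∈ R := hpow u huR K hK
  have hff : f * f = f := hidem u
  have hgu : g * u = u := by rw [hu, ← mul_assoc, ← mul_assoc, hgg]
  have hug : u * g = u := by rw [hu, mul_assoc, hgg]
  obtain ⟨K', hK'⟩ : ∃ K', K = K' + 1 := ⟨K - 1, by omega⟩
  have hgf : g * f = f := by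
    rw [hf, hK', pow_succ', ← mul_assoc, hgu]
  have hfg : f * g = f := by
    rw [hf, hK', pow_succ, mul_assoc, hug]
  obtain ⟨t, _, ht⟩ := hleft f hfR
  rw [hgf, hfg] at ht
  calc f = g * f := hgf.symm
    _ = t * f * f := by rw [ht]
    _ = t * f := by rw [mul_assoc, hff]
    _ = g := ht

/-- The value of a step: `none` is a position where the two words agree. -/
def stepVal (e g g' : N) : Option Bool → N
  | none => e
  | some false => g
  | some true => g'

/-- The palindromic product. -/
def palProd (e g g' : N) (ts : List (Option Bool)) : N :=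
  (ts.map (stepVal e g g')).prod * (ts.reverse.map (stepVal e g g')).prod

omit [Finite N] in
theorem palProd_cons (e g g' : N) (t : Option Bool) (ts : List (Option Bool)) :
    palProd e g g' (t :: ts) = stepVal e g g' t * palProd e g g' ts * stepVal e g g' t := by
  unfold palProd
  simp [mul_assoc]

/-- Two-sided local membership. -/
def Loc (R : Set N) (g z : N) : Prop := z ∈ R ∧ g * z = z ∧ z * g = z

omit [Finite N] in
theorem palProd_spec {e g g' : N} {R : Set N} (hmul : ∀ x ∈ R, ∀ y ∈ R, x * y ∈ R)
    (hee : e * e = e) (heR : ∀ x ∈ R, e * x = x ∧ x * e = x) (hg : g ∈ R) (hg' : g' ∈ R)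
    (hgg : g * g = g) (hgg' : g' * g' = g') (ts : List (Option Bool)) :
    ((ts.reduceOption = []) → palProd e g g' ts = 1 ∨ palProd e g g' ts = e) ∧
    (∀ l, ts.reduceOption = false :: l → Loc R g (palProd e g g' ts)) ∧
    (∀ l, ts.reduceOption = true :: l → Loc R g' (palProd e g g' ts)) := by
  induction ts with
  | nil => simp [palProd]
  | cons t ts ih =>
      rw [palProd_cons]
      set z := palProd e g g' ts with hz
      have hcases : z = 1 ∨ z = e ∨ z ∈ R := by
        cases hl : ts.reduceOption with
        | nil => rcases ih.1 hl with h | h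
                 · exact Or.inl h
                 · exact Or.inr (Or.inl h)
        | cons b l =>
            cases b
            · exact Or.inr (Or.inr (ih.2.1 l hl).1)
            · exact Or.inr (Or.inr (ih.2.2 l hl).1)
      have hbox : ∀ h ∈ R, h * h = h → Loc R h (h * z * h) := by
        intro h hh hhh
        have hhR : h * z * h ∈ R := by
          rcases hcases with h1 | h1 | h1
          · rw [h1, mul_one, hhh]; exact hh
          · rw [h1, (heR h hh).2, hhh]; exact hh
          · exact hmul _ (hmul h hh z h1) h hh
        refine ⟨hhR, ?_, ?_⟩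
        · rw [← mul_assoc, ← mul_assoc, hhh]
        · rw [mul_assoc, hhh]
      cases t with
      | none =>
          simp only [stepVal, List.reduceOption_cons_of_none]
          refine ⟨fun h => ?_, fun l h => ?_, fun l h => ?_⟩
          · rcases ih.1 h with h1 | h1
            · right; rw [h1, mul_one, hee]
            · right; rw [h1, hee, hee]
          · have h2 := ih.2.1 l h
            rw [(heR _ h2.1).1, (heR _ h2.1).2]
            exact h2
          · have h2 := ih.2.2 l h
            rw [(heR _ h2.1).1, (heR _ h2.1).2]
            exact h2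
      | some b =>
          cases b
          · simp only [stepVal, List.reduceOption_cons_of_some]
            exact ⟨fun h => absurd h (by simp), fun l h => hbox g hg hgg,
              fun l h => absurd h (by simp)⟩
          · simp only [stepVal, List.reduceOption_cons_of_some]
            exact ⟨fun h => absurd h (by simp), fun l h => absurd h (by simp),
              fun l h => hbox g' hg' hgg'⟩

end Semi

section Words

variable {k : ℕ} {Q : Type}

/-- The monoid of transformations, in reading order. -/
def Tr (Q : Type) : Type := Q → Q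

instance : Monoid (Tr Q) where
  one := fun s => s
  mul g h := fun s => h (g s)
  mul_assoc _ _ _ := rfl
  one_mul _ := rfl
  mul_one _ := rfl

instance [Finite Q] : Finite (Tr Q) := inferInstanceAs (Finite (Q → Q))

/-- The transformation of a word of letters. -/
def tr {α : Type} (A : DFA α Q) (w : List α) : Tr Q := fun s => A.evalFrom s w

theorem tr_append {α : Type} (A : DFA α Q) (x y : List α) : tr A (x ++ y) = tr A x * tr A y := by
  funext s
  exact DFA.evalFrom_of_append A s x y

theorem tr_nil {α : Type} (A : DFA α Q) : tr A ([] : List α) = 1 := rfl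

/-- The pair of transformations of `(x, y)` and `(y, x)`. -/
def tau (A : DFA (Fin k × Fin k) Q) (x y : List (Fin k)) : Tr Q × Tr Q :=
  (tr A (x.zip y), tr A (y.zip x))

theorem tau_append (A : DFA (Fin k × Fin k) Q) {x y x' y' : List (Fin k)}
    (h : x.length = y.length) : tau A (x ++ x') (y ++ y') = tau A x y * tau A x' y' := by
  unfold tau
  rw [List.zip_append h, List.zip_append h.symm, tr_append, tr_append]
  rfl

theorem tau_nil (A : DFA (Fin k × Fin k) Q) : tau A ([] : List (Fin k)) [] = 1 := rfl

theorem tau_swap (A : DFA (Fin k × Fin k) Q) (x y : List (Fin k)) :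
    tau A y x = (tau A x y).swap := rfl

/-- `f`-concatenation: the letters of `s` are replaced by words. -/
theorem length_flatMap_const {β : Type} (f : β → List (Fin k)) (n : ℕ) (hf : ∀ b, (f b).length = n)
    (s : List β) : (s.flatMap f).length = s.length * n := by
  induction s with
  | nil => simp
  | cons b s ih => simp [List.flatMap_cons, ih, hf]; ring

/-- Products of `tau` over a concatenation of blocks. -/
theorem tau_flatMap (A : DFA (Fin k × Fin k) Q) {β : Type} (f : β → List (Fin k)) (n : ℕ)
    (hf : ∀ b, (f b).length = n) :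
    ∀ s s' : List β, s.length = s'.length → tau A (s.flatMap f) (s'.flatMap f) =
      ((s.zip s').map (fun p => tau A (f p.1) (f p.2))).prod := by
  intro s
  induction s with
  | nil =>
      intro s' h
      have : s' = [] := List.length_eq_zero_iff.1 (by simpa using h.symm)
      subst this
      rfl
  | cons b s ih =>
      intro s' h
      cases s' with
      | nil => simp at h
      | cons b' s' =>
          simp only [List.flatMap_cons, List.zip_cons_cons, List.map_cons, List.prod_cons]
          rw [tau_append A (by rw [hf, hf]), ih s' (by simpa using h)]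

/-- Two words `u, v` of the same positive length such that `(u, u)`, `(v, v)` act as an idempotent
`e`, and such that `g = tau u v` has the strong idempotency property. -/
theorem exists_good_words [Finite Q] (hk : 2 ≤ k) (A : DFA (Fin k × Fin k) Q) :
    ∃ (K : ℕ) (u v : List (Fin k)) (e : Tr Q × Tr Q) (R : Set (Tr Q × Tr Q)), 0 < K ∧
      u.length = v.length ∧ 0 < u.length ∧ u ≠ v ∧ tau A u u = e ∧ tau A v v = e ∧ e * e = e ∧
      e.swap = e ∧
      (∀ x ∈ R, ∀ y ∈ R, x * y ∈ R) ∧ (∀ x ∈ R, e * x = x ∧ x * e = x) ∧
      (∀ x ∈ R, x.swap ∈ R) ∧ tau A u v ∈ R ∧ tau A u v * tau A u v = tau A u v ∧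
      (∀ z ∈ R, (tau A u v * z * tau A u v) ^ K = tau A u v) := by
  classical
  obtain ⟨K, hK, hidem⟩ := exists_pow_idem (N := Tr Q × Tr Q)
  have hidem1 : ∀ g : Tr Q, g ^ K * g ^ K = g ^ K := fun g => by
    have := hidem (g, g)
    exact congrArg Prod.fst this
  -- two different words of the same length with the same diagonal action
  obtain ⟨p, q, hpq, hlen, hdiag⟩ : ∃ p q : List (Fin k), p ≠ q ∧ p.length = q.length ∧
      tr A (p.zip p) = tr A (q.zip q) := by
    have := Fintype.ofFinite (Tr Q)
    set l := Fintype.card (Tr Q) with hl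
    have hcard : Fintype.card (Tr Q) < Fintype.card (Fin l → Fin k) := by
      rw [Fintype.card_fun, Fintype.card_fin, Fintype.card_fin, ← hl]
      calc l < 2 ^ l := Nat.lt_two_pow_self
        _ ≤ k ^ l := Nat.pow_le_pow_left hk l
    obtain ⟨f, f', hff, h⟩ := Fintype.exists_ne_map_eq_of_card_lt
      (fun f : Fin l → Fin k => tr A ((List.ofFn f).zip (List.ofFn f))) hcard
    exact ⟨List.ofFn f, List.ofFn f', fun h => hff (List.ofFn_injective h), by simp, h⟩
  -- powers of words
  let rep : ℕ → List (Fin k) → List (Fin k) := fun n w => (List.replicate n w).flatten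
  have hrep_len : ∀ n w, (rep n w).length = n * w.length := by
    intro n w
    simp [rep, List.length_flatten]
  have hrep : ∀ n w, tr A ((rep n w).zip (rep n w)) = (tr A (w.zip w)) ^ n := by
    intro n w
    induction n with
    | zero => simp [rep, tr_nil]
    | succ n ih =>
        have h1 : rep (n + 1) w = w ++ rep n w := by simp [rep, List.replicate_succ]
        rw [h1, List.zip_append rfl, tr_append, ih, pow_succ']
  set g0 := tr A (p.zip p) with hg0
  set p' := rep K p with hp'
  set q' := q ++ rep (K - 1) p with hq'
  have hp'' : p' = p ++ rep (K - 1) p := by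
    rw [hp']
    obtain ⟨K', rfl⟩ : ∃ K', K = K' + 1 := ⟨K - 1, by omega⟩
    simp [rep, List.replicate_succ]
  have hlen' : p'.length = q'.length := by rw [hp'', hq']; simp [hlen]
  have hne' : p' ≠ q' := by
    rw [hp'', hq']
    intro h
    exact hpq (List.append_inj_left h hlen)
  set e0 := g0 ^ K with he0
  have hTp : tr A (p'.zip p') = e0 := by rw [hp', hrep]
  have hTq : tr A (q'.zip q') = e0 := by
    rw [hq', List.zip_append rfl, tr_append, hrep, ← hdiag, ← pow_succ']
    congr 1
    omega
  have he0e0 : e0 * e0 = e0 := hidem1 g0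
  set e : Tr Q × Tr Q := (e0, e0) with he
  have hee : e * e = e := by rw [he, Prod.mk_mul_mk, he0e0]
  set a := p' ++ p' ++ p' with ha
  set b := p' ++ q' ++ p' with hb
  have hab_len : a.length = b.length := by rw [ha, hb]; simp [hlen']
  have htpp : tau A p' p' = e := by unfold tau; rw [hTp]
  have htqq : tau A q' q' = e := by unfold tau; rw [hTq]
  have htaa : tau A a a = e := by
    rw [ha, tau_append A rfl, tau_append A rfl, htpp, hee, hee]
  have htbb : tau A b b = e := by
    rw [hb, tau_append A rfl, tau_append A rfl, htpp, htqq, hee, hee]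
  set d := tau A a b with hd
  have hd' : d = e * tau A p' q' * e := by
    rw [hd, ha, hb, tau_append A (by simp [hlen']), tau_append A rfl, htpp]
  have hed : e * d = d := by rw [hd', ← mul_assoc, ← mul_assoc, hee]
  have hde : d * e = d := by rw [hd', mul_assoc, hee]
  have hswape : e.swap = e := rfl
  have hba_ne : a ≠ b := by
    intro h
    have h1 := List.append_inj_left h (by simp [hlen'])
    exact hne' (List.append_inj_right h1 rfl)
  have hpos : 0 < a.length := by
    rcases Nat.eq_zero_or_pos a.length with h | h
    · exfalso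
      apply hba_ne
      have ha0 : a = [] := List.length_eq_zero_iff.1 h
      have hb0 : b = [] := List.length_eq_zero_iff.1 (by rw [← hab_len]; exact h)
      rw [ha0, hb0]
    · exact h
  -- words over `a, b`
  let f : Bool → List (Fin k) := fun c => if c then b else a
  have hf : ∀ c, (f c).length = a.length := by
    intro c; cases c <;> simp [f, hab_len]
  let W : List Bool → List (Fin k) := fun s => s.flatMap f
  let π : List Bool → Tr Q × Tr Q := fun s => tau A (W s) (W (s.map not))
  have hπ : ∀ s, π s = (s.map (fun c => if c then d.swap else d)).prod := by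
    intro s
    have h1 := tau_flatMap A f a.length hf s (s.map not) (by simp)
    have h2 : π s = ((s.zip (s.map not)).map (fun p => tau A (f p.1) (f p.2))).prod := h1
    rw [h2]
    congr 1
    induction s with
    | nil => rfl
    | cons c s ih =>
        have ih' := ih (tau_flatMap A f a.length hf s (s.map not) (by simp))
          (tau_flatMap A f a.length hf s (s.map not) (by simp))
        simp only [List.map_cons, List.zip_cons_cons]
        rw [ih']
        congr 1
        cases c
        · simp [f, hd]
        · simp only [f, Bool.not_true, if_true, Bool.false_eq_true, if_false]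
          rw [tau_swap]
  let R : Set (Tr Q × Tr Q) := {x | ∃ s : List Bool, s ≠ [] ∧ π s = x}
  have hRmul : ∀ x ∈ R, ∀ y ∈ R, x * y ∈ R := by
    rintro _ ⟨s, hs, rfl⟩ _ ⟨s', hs', rfl⟩
    refine ⟨s ++ s', by simp [hs], ?_⟩
    rw [hπ, hπ, hπ, List.map_append, List.prod_append]
  have hRne : R.Nonempty := ⟨_, [false], by simp, rfl⟩
  have hswapmul : ∀ x y : Tr Q × Tr Q, (x * y).swap = x.swap * y.swap := fun x y => rfl
  have hRe : ∀ x ∈ R, e * x = x ∧ x * e = x := by
    have hdd : ∀ c : Bool, e * (if c then d.swap else d) = (if c then d.swap else d) ∧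
        (if c then d.swap else d) * e = (if c then d.swap else d) := by
      intro c
      cases c
      · exact ⟨hed, hde⟩
      · constructor
        · have := congrArg Prod.swap hed
          rw [hswapmul, hswape] at this
          exact this
        · have := congrArg Prod.swap hde
          rw [hswapmul, hswape] at this
          exact this
    rintro _ ⟨s, hs, rfl⟩
    rw [hπ]
    constructor
    · cases s with
      | nil => exact absurd rfl hs
      | cons c s =>
          rw [List.map_cons, List.prod_cons, ← mul_assoc, (hdd c).1]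
    · induction s using List.reverseRecOn with
      | nil => exact absurd rfl hs
      | append_singleton s c _ =>
          rw [List.map_append, List.prod_append, List.map_singleton, List.prod_singleton,
            mul_assoc, (hdd c).2]
  have hRswap : ∀ x ∈ R, x.swap ∈ R := by
    rintro _ ⟨s, hs, rfl⟩
    refine ⟨s.map not, by simp [hs], ?_⟩
    have h1 : (s.map not).map not = s := by
      rw [List.map_map]
      have h2 : (not ∘ not) = id := by funext c; cases c <;> rfl
      rw [h2, List.map_id]
    show tau A (W (s.map not)) (W ((s.map not).map not)) = (tau A (W s) (W (s.map not))).swap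
    rw [h1]
    rfl
  obtain ⟨g, ⟨s, hs, hgs⟩, hgg, hgK⟩ := exists_min_idem hK hidem hRne hRmul
  have hWdiag : ∀ s : List Bool, s ≠ [] → tau A (W s) (W s) = e := by
    intro s hs
    have h1 := tau_flatMap A f a.length hf s s rfl
    have h2 : tau A (W s) (W s) = ((s.zip s).map (fun p => tau A (f p.1) (f p.2))).prod := h1
    rw [h2]
    clear h1 h2
    have h3 : ∀ c, tau A (f c) (f c) = e := by
      intro c; cases c
      · simpa [f] using htaa
      · simpa [f] using htbb
    have h4 : (s.zip s).map (fun p => tau A (f p.1) (f p.2)) = List.replicate s.length e := by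
      clear hs
      induction s with
      | nil => rfl
      | cons c s ih => simp only [List.zip_cons_cons, List.map_cons, ih, h3, List.length_cons,
          List.replicate_succ]
    rw [h4, List.prod_replicate]
    have hn : 0 < s.length := List.length_pos_iff.2 hs
    have : ∀ n, 0 < n → e ^ n = e := by
      intro n hn
      induction n with
      | zero => omega
      | succ n ih =>
          rcases Nat.eq_zero_or_pos n with h | h
          · subst h; simp
          · rw [pow_succ, ih h, hee]
    exact this _ hn
  have hWlen : ∀ s : List Bool, (W s).length = s.length * a.length :=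
    fun s => length_flatMap_const f a.length hf s
  refine ⟨K, W s, W (s.map not), e, R, hK, ?_, ?_, ?_, hWdiag s hs, hWdiag _ (by simp [hs]), hee,
    hswape, hRmul, hRe, hRswap, ?_, ?_, ?_⟩
  · rw [hWlen, hWlen]; simp
  · rw [hWlen]
    exact Nat.mul_pos (List.length_pos_iff.2 hs) hpos
  · cases s with
    | nil => exact absurd rfl hs
    | cons c s =>
        intro h
        have h1 : f c ++ W s = f (!c) ++ W (s.map not) := h
        have h2 := List.append_inj_left h1 (by rw [hf, hf])
        cases c
        · exact hba_ne (by simpa [f] using h2)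
        · exact hba_ne (by simpa [f] using h2.symm)
  · exact ⟨s, hs, rfl⟩
  · have : tau A (W s) (W (s.map not)) = g := hgs
    rw [this]; exact hgg
  · have : tau A (W s) (W (s.map not)) = g := hgs
    rw [this]; exact hgK

end Words

end Pool.Agent.ExpRam
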