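import Mathlib

set_option autoImplicit false

/-!
# Folkman's theorem for two colours, finite form

It follows from Hindman's theorem by a compactness argument.
-/

namespace Pool.Agent.ExpRam

open Finset Filter

theorem fs_pos (a : Stream' ℕ) (m : ℕ) (hm : m ∈ Hindman.FS a) (ha : ∀ i, 0 < a.get i) :
    0 < m := by
  induction hm with
  | head' a => exact ha 0
  | tail' a m _ ih => exact ih (fun i => ha (i + 1))
  | cons' a m _ ih =>
      have := ha 0
      have h2 : 0 < a.head + m := Nat.add_pos_left this m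
      exact h2

/-- Hindman's theorem for two colours, for finitely many summands. -/
theorem hindman_two (χ : ℕ → Bool) : ∃ (a : ℕ → ℕ) (c : Bool), (∀ i, 0 < a i) ∧
    ∀ I : Finset ℕ, I.Nonempty → χ (∑ i ∈ I, a i) = c := by
  let a0 : Stream' ℕ := fun _ => 1
  let S : Bool → Set ℕ := fun c => {x | 0 < x ∧ χ x = c}
  have hcov : Hindman.FS a0 ⊆ ⋃₀ (Set.range S) := by
    intro x hx
    have hx0 : 0 < x := fs_pos a0 x hx (fun _ => Nat.one_pos)
    exact ⟨S (χ x), ⟨χ x, rfl⟩, hx0, rfl⟩
  obtain ⟨c, ⟨c', rfl⟩, b, hb⟩ := Hindman.FS_partition_regular a0 (Set.range S)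
    (Set.finite_range S) hcov
  refine ⟨fun i => b.get i, c', fun i => (hb (Hindman.FS.singleton b i)).1, ?_⟩
  intro I hI
  exact (hb (Hindman.FS.finsetSum b I hI)).2

/-- Folkman's theorem for two colours: all nonempty subset sums of some `r` positive integers
bounded by `F` have one colour. -/
theorem folkman (r : ℕ) : ∃ F : ℕ, ∀ ψ : ℕ → Bool, ∃ (b : Fin r → ℕ) (c : Bool),
    (∀ i, 0 < b i ∧ b i ≤ F) ∧ ∀ I : Finset (Fin r), I.Nonempty → ψ (∑ i ∈ I, b i) = c := by
  by_contra hcon
  push Not at hcon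
  choose ψ hψ using hcon
  let U : Ultrafilter ℕ := Filter.hyperfilter ℕ
  classical
  let χ : ℕ → Bool := fun x => decide (∀ᶠ F in (U : Filter ℕ), ψ F x = true)
  have hχ : ∀ x, ∀ᶠ F in (U : Filter ℕ), ψ F x = χ x := by
    intro x
    by_cases h : ∀ᶠ F in (U : Filter ℕ), ψ F x = true
    · have : χ x = true := by simp [χ, h]
      rw [this]; exact h
    · have h1 : χ x = false := by simp [χ, h]
      rw [h1]
      have := Ultrafilter.eventually_not.2 h
      filter_upwards [this] with F hF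
      simpa using hF
  obtain ⟨a, c, ha, hc⟩ := hindman_two χ
  let b : Fin r → ℕ := fun i => a i
  have h1 : ∀ᶠ F in (U : Filter ℕ), ∀ I : Finset (Fin r), ψ F (∑ i ∈ I, b i) = χ (∑ i ∈ I, b i) := by
    rw [Filter.eventually_all]
    intro I
    exact hχ _
  have h2 : ∀ᶠ F in (U : Filter ℕ), ∀ i : Fin r, b i ≤ F := by
    rw [Filter.eventually_all]
    intro i
    have : ∀ᶠ F in Filter.cofinite, b i ≤ F := by
      rw [Nat.cofinite_eq_atTop]
      exact Filter.eventually_ge_atTop _
    exact Filter.hyperfilter_le_cofinite this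
  obtain ⟨F, hF1, hF2⟩ := (h1.and h2).exists
  obtain ⟨I, hI, hne⟩ := hψ F b c (fun i => ⟨ha i, hF2 i⟩)
  apply hne
  rw [hF1 I]
  have : ∑ i ∈ I, b i = ∑ i ∈ I.map Fin.valEmbedding, a i := by
    rw [Finset.sum_map]; rfl
  rw [this]
  exact hc _ (by simpa using hI)

end Pool.Agent.ExpRam
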