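import Pool.Agent.ExpRam.Folkman

set_option autoImplicit false

/-!
# Graphs on words that are invariant under permutations of the positions
-/

namespace Pool.Agent.ExpRam

open Finset

section Perm

variable {M : ℕ} {X : Type} [DecidableEq X]

/-- Two words with the same number of occurrences of every letter differ by a permutation of the
positions. -/
theorem exists_perm_of_card {f g : Fin M → X}
    (h : ∀ x, (univ.filter (fun i => f i = x)).card = (univ.filter (fun i => g i = x)).card) :
    ∃ σ : Equiv.Perm (Fin M), g ∘ σ = f := by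
  have e : ∀ x, Nonempty ({i // f i = x} ≃ {i // g i = x}) := by
    intro x
    apply Fintype.card_eq.1
    rw [Fintype.card_subtype, Fintype.card_subtype]
    exact h x
  let e2 : ∀ x, ({i // f i = x} ≃ {i // g i = x}) := fun x => (e x).some
  let σ : Equiv.Perm (Fin M) :=
    (Equiv.sigmaFiberEquiv f).symm.trans ((Equiv.sigmaCongrRight e2).trans (Equiv.sigmaFiberEquiv g))
  refine ⟨σ, ?_⟩
  funext i
  have : g (σ i) = f i := by
    show g (((e2 (f i)) ⟨i, rfl⟩ : {j // g j = f i}) : Fin M) = f i
    exact ((e2 (f i)) ⟨i, rfl⟩).2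
  exact this

end Perm

section Words

variable {M : ℕ} {A : Type} [DecidableEq A]

/-- Number of occurrences of the letter `a` in `x`. -/
def cnt (x : Fin M → A) (a : A) : ℕ := (univ.filter (fun i => x i = a)).card

/-- `x` and `y` differ exactly by `D` positions where `x` has `b` and `y` has `a`, and `D` positions
where `x` has `a` and `y` has `b`. -/
def SwapRel (a b : A) (D : ℕ) (x y : Fin M → A) : Prop :=
  (∀ i, x i ≠ y i → (x i = b ∧ y i = a) ∨ (x i = a ∧ y i = b)) ∧
  (univ.filter (fun i => x i = b ∧ y i = a)).card = D ∧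
  (univ.filter (fun i => x i = a ∧ y i = b)).card = D

theorem swapRel_joint {a b : A} (hab : a ≠ b) {D : ℕ} {x y : Fin M → A} (h : SwapRel a b D x y)
    (p : A × A) : (univ.filter (fun i => (x i, y i) = p)).card =
      if p.1 = p.2 then cnt x p.1 - (if p.1 = a ∨ p.1 = b then D else 0)
      else if (p.1 = b ∧ p.2 = a) ∨ (p.1 = a ∧ p.2 = b) then D else 0 := by
  obtain ⟨h1, h2, h3⟩ := h
  obtain ⟨s, t⟩ := p
  simp only [Prod.mk.injEq]
  by_cases hst : s = t
  · subst hst
    simp only [if_true]
    have hsplit : (univ.filter (fun i => x i = s)).card =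
        (univ.filter (fun i => x i = s ∧ y i = s)).card +
        (univ.filter (fun i => x i = s ∧ y i ≠ s)).card := by
      rw [← Finset.card_union_of_disjoint]
      · congr 1
        ext i
        simp only [mem_filter, mem_univ, true_and, mem_union]
        tauto
      · rw [Finset.disjoint_filter]
        rintro i _ ⟨_, h⟩ ⟨_, h'⟩
        exact h' h
    have hD : (univ.filter (fun i => x i = s ∧ y i ≠ s)).card =
        if s = a ∨ s = b then D else 0 := by
      by_cases hs : s = a
      · subst hs
        simp only [true_or, if_true]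
        rw [← h3]
        congr 1
        ext i
        simp only [mem_filter, mem_univ, true_and]
        constructor
        · rintro ⟨hx, hy⟩
          have hne : x i ≠ y i := by rw [hx]; exact fun h => hy h.symm
          rcases h1 i hne with h | h
          · exact absurd (hx.symm.trans h.1) hab
          · exact h
        · rintro ⟨hx, hy⟩
          exact ⟨hx, by rw [hy]; exact hab.symm⟩
      · by_cases hs' : s = b
        · subst hs'
          simp only [or_true, if_true]
          rw [← h2]
          congr 1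
          ext i
          simp only [mem_filter, mem_univ, true_and]
          constructor
          · rintro ⟨hx, hy⟩
            have hne : x i ≠ y i := by rw [hx]; exact fun h => hy h.symm
            rcases h1 i hne with h | h
            · exact h
            · exact absurd (hx.symm.trans h.1) hs
          · rintro ⟨hx, hy⟩
            exact ⟨hx, by rw [hy]; exact hab⟩
        · simp only [hs, hs', or_self, if_false]
          rw [Finset.card_eq_zero, Finset.filter_eq_empty_iff]
          rintro i _ ⟨hx, hy⟩
          have hne : x i ≠ y i := by rw [hx]; exact fun h => hy h.symm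
          rcases h1 i hne with h | h
          · exact hs' (hx.symm.trans h.1)
          · exact hs (hx.symm.trans h.1)
    unfold cnt
    omega
  · simp only [hst, if_false]
    by_cases hc : (s = b ∧ t = a) ∨ (s = a ∧ t = b)
    · simp only [hc, if_true]
      rcases hc with ⟨rfl, rfl⟩ | ⟨rfl, rfl⟩
      · exact h2
      · exact h3
    · simp only [hc, if_false]
      rw [Finset.card_eq_zero, Finset.filter_eq_empty_iff]
      rintro i _ ⟨hx, hy⟩
      have hne : x i ≠ y i := by rw [hx, hy]; exact hst
      rcases h1 i hne with h | h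
      · exact hc (Or.inl ⟨hx.symm.trans h.1, hy.symm.trans h.2⟩)
      · exact hc (Or.inr ⟨hx.symm.trans h.1, hy.symm.trans h.2⟩)

theorem exists_perm_pair {a b : A} (hab : a ≠ b) {D : ℕ} {x y x' y' : Fin M → A}
    (h : SwapRel a b D x y) (h' : SwapRel a b D x' y') (hc : ∀ s, cnt x s = cnt x' s) :
    ∃ σ : Equiv.Perm (Fin M), x' ∘ σ = x ∧ y' ∘ σ = y := by
  have : ∀ p : A × A, (univ.filter (fun i => (fun i => (x i, y i)) i = p)).card =
      (univ.filter (fun i => (fun i => (x' i, y' i)) i = p)).card := by
    intro p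
    simp only
    rw [swapRel_joint hab h p, swapRel_joint hab h' p, hc]
  obtain ⟨σ, hσ⟩ := exists_perm_of_card this
  refine ⟨σ, ?_, ?_⟩
  · funext i
    have := congrFun hσ i
    simp only [Function.comp, Prod.mk.injEq] at this
    exact this.1
  · funext i
    have := congrFun hσ i
    simp only [Function.comp, Prod.mk.injEq] at this
    exact this.2

/-- Change the letters of `w` on `E` to `b` and on `Z` to `a`. -/
def swapWord (w : Fin M → A) (a b : A) (E Z : Finset (Fin M)) : Fin M → A :=
  fun p => if p ∈ E then b else if p ∈ Z then a else w p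

theorem cnt_swapWord {w : Fin M → A} {a b : A} (hab : a ≠ b) {E Z : Finset (Fin M)}
    (hE : ∀ p ∈ E, w p = a) (hZ : ∀ p ∈ Z, w p = b) (hEZ : E.card = Z.card) (s : A) :
    cnt (swapWord w a b E Z) s = cnt w s := by
  have hdisj : ∀ p, p ∈ E → p ∉ Z := fun p h h' => hab ((hE p h).symm.trans (hZ p h'))
  unfold cnt
  by_cases hsa : s = a
  · subst hsa
    have h1 : univ.filter (fun i => swapWord w s b E Z i = s) =
        (univ.filter (fun i => w i = s) \ E) ∪ Z := by
      ext p
      simp only [mem_filter, mem_univ, true_and, mem_union, mem_sdiff]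
      unfold swapWord
      by_cases h1 : p ∈ E
      · simp [h1, hdisj p h1, hab.symm]
      · by_cases h2 : p ∈ Z
        · simp [h1, h2]
        · simp [h1, h2]
    rw [h1, Finset.card_union_of_disjoint, Finset.card_sdiff_of_subset]
    · have : E.card ≤ (univ.filter (fun i => w i = s)).card := by
        apply Finset.card_le_card
        intro p hp
        simp [hE p hp]
      omega
    · intro p hp
      simp [hE p hp]
    · rw [Finset.disjoint_left]
      intro p hp hp'
      simp only [mem_sdiff, mem_filter, mem_univ, true_and] at hp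
      exact hab (hp.1.symm.trans (hZ p hp'))
  · by_cases hsb : s = b
    · subst hsb
      have h1 : univ.filter (fun i => swapWord w a s E Z i = s) =
          (univ.filter (fun i => w i = s) \ Z) ∪ E := by
        ext p
        simp only [mem_filter, mem_univ, true_and, mem_union, mem_sdiff]
        unfold swapWord
        by_cases h1 : p ∈ E
        · simp [h1]
        · by_cases h2 : p ∈ Z
          · simp [h1, h2, hab]
          · simp [h1, h2]
      rw [h1, Finset.card_union_of_disjoint, Finset.card_sdiff_of_subset]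
      · have : Z.card ≤ (univ.filter (fun i => w i = s)).card := by
          apply Finset.card_le_card
          intro p hp
          simp [hZ p hp]
        omega
      · intro p hp
        simp [hZ p hp]
      · rw [Finset.disjoint_left]
        intro p hp hp'
        simp only [mem_sdiff, mem_filter, mem_univ, true_and] at hp
        exact hab ((hE p hp').symm.trans hp.1)
    · congr 1
      ext p
      simp only [mem_filter, mem_univ, true_and]
      unfold swapWord
      by_cases h1 : p ∈ E
      · simp [h1, hE p h1, Ne.symm hsb, Ne.symm hsa]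
      · by_cases h2 : p ∈ Z
        · simp [h1, h2, hZ p h2, Ne.symm hsb, Ne.symm hsa]
        · simp [h1, h2]

theorem swapRel_swapWord {w : Fin M → A} {a b : A} (hab : a ≠ b) {E E' Z : Finset (Fin M)}
    (hE : ∀ p ∈ E, w p = a) (hE' : ∀ p ∈ E', w p = a) (hZ : ∀ p ∈ Z, w p = b) {D : ℕ}
    (hD : (E \ E').card = D) (hD' : (E' \ E).card = D) :
    SwapRel a b D (swapWord w a b E Z) (swapWord w a b E' Z) := by
  have hdisj : ∀ p, p ∈ E → p ∉ Z := fun p h h' => hab ((hE p h).symm.trans (hZ p h'))
  have hdisj' : ∀ p, p ∈ E' → p ∉ Z := fun p h h' => hab ((hE' p h).symm.trans (hZ p h'))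
  refine ⟨?_, ?_, ?_⟩
  · intro p hp
    by_cases h1 : p ∈ E
    · by_cases h2 : p ∈ E'
      · exact absurd (by simp [swapWord, h1, h2]) hp
      · left
        simp [swapWord, h1, h2, hdisj p h1, hE p h1]
    · by_cases h2 : p ∈ E'
      · right
        simp [swapWord, h1, h2, hdisj' p h2, hE' p h2]
      · exact absurd (by simp [swapWord, h1, h2]) hp
  · rw [← hD]
    congr 1
    ext p
    simp only [mem_filter, mem_univ, true_and, mem_sdiff]
    unfold swapWord
    by_cases h1 : p ∈ E
    · by_cases h2 : p ∈ E'
      · simp [h1, h2, hab.symm]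
      · simp [h1, h2, hdisj p h1, hE p h1]
    · by_cases h2 : p ∈ E'
      · simp [h1, h2, hab.symm]
      · by_cases h3 : p ∈ Z
        · simp [h1, h2, h3, hab]
        · simp only [h1, h2, h3, if_false, false_and, iff_false, not_and]
          intro h4 h5
          exact hab (h5.symm.trans h4)
  · rw [← hD']
    congr 1
    ext p
    simp only [mem_filter, mem_univ, true_and, mem_sdiff]
    unfold swapWord
    by_cases h1 : p ∈ E
    · by_cases h2 : p ∈ E'
      · simp [h1, h2, hab.symm]
      · simp [h1, h2, hab.symm]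
    · by_cases h2 : p ∈ E'
      · simp [h1, h2, hdisj' p h2, hE' p h2]
      · by_cases h3 : p ∈ Z
        · simp [h1, h2, h3, hab]
        · simp only [h1, h2, h3, if_false, false_and, iff_false, not_and]
          intro h4 h5
          exact hab (h4.symm.trans h5)

end Words

section Cells

variable {r N F : ℕ}

/-- The cells `(i, c i, k)`, `i ∈ I`, `k < β i`. -/
def cells (β : Fin r → ℕ) (c : Fin r → Fin N) (I : Finset (Fin r)) :
    Finset (Fin r × Fin N × Fin F) :=
  univ.filter (fun p => p.1 ∈ I ∧ p.2.1 = c p.1 ∧ (p.2.2 : ℕ) < β p.1)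

theorem card_cells (β : Fin r → ℕ) (hβ : ∀ i, β i ≤ F) (c : Fin r → Fin N) (I : Finset (Fin r)) :
    (cells (F := F) β c I).card = ∑ i ∈ I, β i := by
  have h1 : cells (F := F) β c I =
      (I.sigma (fun i => (univ : Finset (Fin F)).filter (fun k : Fin F => (k : ℕ) < β i))).image
        (fun q => (q.1, c q.1, q.2)) := by
    ext ⟨i, j, k⟩
    simp only [cells, mem_filter, mem_univ, true_and, mem_image, mem_sigma, Prod.mk.injEq,
      Sigma.exists]
    constructor
    · rintro ⟨hi, hj, hk⟩
      exact ⟨i, k, ⟨hi, hk⟩, rfl, hj.symm, rfl⟩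
    · rintro ⟨i', k', ⟨hi, hk⟩, rfl, rfl, rfl⟩
      exact ⟨hi, rfl, hk⟩
  rw [h1, Finset.card_image_of_injective, Finset.card_sigma]
  · apply Finset.sum_congr rfl
    intro i _
    have : (univ : Finset (Fin F)).filter (fun k : Fin F => (k : ℕ) < β i) =
        (Finset.range (β i)).attachFin (fun k hk => lt_of_lt_of_le (Finset.mem_range.1 hk) (hβ i)) := by
      ext k
      simp
    rw [this, Finset.card_attachFin, Finset.card_range]
  · rintro ⟨i, k⟩ ⟨i', k'⟩ h
    simp only [Prod.mk.injEq] at h
    obtain ⟨rfl, _, rfl⟩ := h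
    rfl

theorem cells_sdiff (β : Fin r → ℕ) (c c' : Fin r → Fin N) :
    cells (F := F) β c univ \ cells β c' univ = cells β c (univ.filter (fun i => c i ≠ c' i)) := by
  ext ⟨i, j, k⟩
  simp only [cells, mem_sdiff, mem_filter, mem_univ, true_and, not_and]
  constructor
  · rintro ⟨⟨rfl, hk⟩, h2⟩
    exact ⟨fun h => (h2 h) hk, rfl, hk⟩
  · rintro ⟨h1, rfl, hk⟩
    exact ⟨⟨rfl, hk⟩, fun h => absurd h h1⟩

end Cells

section Families

variable {M : ℕ} {A : Type} [DecidableEq A]

/-- `V` is invariant under permutations of the positions, and so is the adjacency of `G` on `V`. -/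
def SymInv (V : Finset (Fin M → A)) (G : SimpleGraph (Fin M → A)) : Prop :=
  (∀ x ∈ V, ∀ σ : Equiv.Perm (Fin M), x ∘ σ ∈ V) ∧
  (∀ x ∈ V, ∀ y ∈ V, ∀ σ : Equiv.Perm (Fin M), G.Adj (x ∘ σ) (y ∘ σ) ↔ G.Adj x y)

/-- `S` is a clique or an independent set of `G`. -/
def Homog (G : SimpleGraph (Fin M → A)) (S : Finset (Fin M → A)) : Prop :=
  (∀ x ∈ S, ∀ y ∈ S, x ≠ y → G.Adj x y) ∨ (∀ x ∈ S, ∀ y ∈ S, x ≠ y → ¬ G.Adj x y)

theorem mem_of_cnt {V : Finset (Fin M → A)} {G : SimpleGraph (Fin M → A)} (h : SymInv V G)
    {w x : Fin M → A} (hw : w ∈ V) (hc : ∀ s, cnt x s = cnt w s) : x ∈ V := by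
  obtain ⟨σ, rfl⟩ := exists_perm_of_card (f := x) (g := w) hc
  exact h.1 w hw σ

theorem block_family {V : Finset (Fin M → A)} {G : SimpleGraph (Fin M → A)} (h : SymInv V G)
    {w : Fin M → A} (hw : w ∈ V) {a b : A} (hab : a ≠ b) {r N F : ℕ}
    (hF : ∀ ψ : ℕ → Bool, ∃ (β : Fin r → ℕ) (c : Bool),
      (∀ i, 0 < β i ∧ β i ≤ F) ∧ ∀ I : Finset (Fin r), I.Nonempty → ψ (∑ i ∈ I, β i) = c)
    (hA : r * N * F ≤ cnt w a) (hB : r * F ≤ cnt w b) :
    ∃ S ⊆ V, S.card = N ^ r ∧ Homog G S := by
  classical
  let P : ℕ → (Fin M → A) → (Fin M → A) → Prop := fun D x y =>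
    (∀ s, cnt x s = cnt w s) ∧ (∀ s, cnt y s = cnt w s) ∧ SwapRel a b D x y
  let ψ : ℕ → Bool := fun D => decide (∃ x y, P D x y ∧ G.Adj x y)
  have hinv : ∀ D x y x' y', P D x y → P D x' y' → G.Adj x y → G.Adj x' y' := by
    rintro D x y x' y' ⟨h1, h2, h3⟩ ⟨h1', h2', h3'⟩ hadj
    obtain ⟨σ, hσ, hσ'⟩ := exists_perm_pair hab h3 h3' (fun s => (h1 s).trans (h1' s).symm)
    have := h.2 x' (mem_of_cnt h hw h1') y' (mem_of_cnt h hw h2') σ
    rw [hσ, hσ'] at this
    exact this.1 hadj
  obtain ⟨β, col, hβ, hcol⟩ := hF ψ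
  have e : Nonempty ((Fin r × Fin N × Fin F) ↪ {i // w i = a}) := by
    apply Function.Embedding.nonempty_of_card_le
    rw [Fintype.card_subtype]
    simp only [Fintype.card_prod, Fintype.card_fin]
    calc r * (N * F) = r * N * F := by ring
      _ ≤ _ := hA
  obtain ⟨e⟩ := e
  have hS : ∑ i, β i ≤ cnt w b := by
    calc ∑ i, β i ≤ ∑ _i : Fin r, F := Finset.sum_le_sum (fun i _ => (hβ i).2)
      _ = r * F := by simp
      _ ≤ _ := hB
  obtain ⟨Z, hZsub, hZcard⟩ := Finset.exists_subset_card_eq hS
  have hZ : ∀ p ∈ Z, w p = b := fun p hp => by simpa using hZsub hp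
  let e' : (Fin r × Fin N × Fin F) ↪ Fin M := e.trans (Function.Embedding.subtype _)
  let E : (Fin r → Fin N) → Finset (Fin M) := fun c => (cells β c univ).map e'
  have hE : ∀ c, ∀ p ∈ E c, w p = a := by
    intro c p hp
    obtain ⟨q, _, rfl⟩ := Finset.mem_map.1 hp
    exact (e q).2
  have hEcard : ∀ c, (E c).card = Z.card := by
    intro c
    rw [Finset.card_map, card_cells β (fun i => (hβ i).2), hZcard]
  have hEd : ∀ c c', (E c \ E c').card = ∑ i ∈ univ.filter (fun i => c i ≠ c' i), β i := by
    intro c c'
    have : E c \ E c' = (cells β c univ \ cells β c' univ).map e' := by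
      ext p
      simp only [E, mem_sdiff, Finset.mem_map]
      constructor
      · rintro ⟨⟨q, hq, rfl⟩, h2⟩
        exact ⟨q, ⟨hq, fun h3 => h2 ⟨q, h3, rfl⟩⟩, rfl⟩
      · rintro ⟨q, ⟨hq, hq'⟩, rfl⟩
        refine ⟨⟨q, hq, rfl⟩, ?_⟩
        rintro ⟨q', h3, h4⟩
        rw [e'.injective h4] at h3
        exact hq' h3
    rw [this, Finset.card_map, cells_sdiff, card_cells β (fun i => (hβ i).2)]
  let v : (Fin r → Fin N) → (Fin M → A) := fun c => swapWord w a b (E c) Z
  have hcnt : ∀ c s, cnt (v c) s = cnt w s := fun c s =>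
    cnt_swapWord hab (hE c) hZ (hEcard c) s
  have hrel : ∀ c c', SwapRel a b (∑ i ∈ univ.filter (fun i => c i ≠ c' i), β i) (v c) (v c') := by
    intro c c'
    apply swapRel_swapWord hab (hE c) (hE c') hZ (hEd c c')
    rw [hEd c' c]
    congr 1
    ext i
    simp [ne_comm]
  have hpos : ∀ c c' : Fin r → Fin N, c ≠ c' → (univ.filter (fun i => c i ≠ c' i)).Nonempty := by
    intro c c' hne
    obtain ⟨i, hi⟩ := Function.ne_iff.1 hne
    exact ⟨i, by simp [hi]⟩
  have hinj : Function.Injective v := by
    intro c c' hv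
    by_contra hne
    have h1 := (hrel c c').2.1
    rw [hv] at h1
    have h2 : (univ.filter (fun i => v c' i = b ∧ v c' i = a)).card = 0 := by
      rw [Finset.card_eq_zero, Finset.filter_eq_empty_iff]
      rintro i _ ⟨h3, h4⟩
      exact hab (h4.symm.trans h3)
    rw [h2] at h1
    obtain ⟨i, hi⟩ := hpos c c' hne
    have h3 : β i ≤ ∑ i ∈ univ.filter (fun i => c i ≠ c' i), β i :=
      Finset.single_le_sum (fun _ _ => Nat.zero_le _) hi
    have := (hβ i).1
    omega
  refine ⟨univ.image v, ?_, ?_, ?_⟩
  · intro x hx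
    obtain ⟨c, _, rfl⟩ := Finset.mem_image.1 hx
    exact mem_of_cnt h hw (hcnt c)
  · rw [Finset.card_image_of_injective _ hinj]
    simp
  · have key : ∀ c c', c ≠ c' → (G.Adj (v c) (v c') ↔ col = true) := by
      intro c c' hne
      have h1 := hcol _ (hpos c c' hne)
      rw [← h1]
      simp only [ψ, decide_eq_true_eq]
      constructor
      · intro hadj
        exact ⟨v c, v c', ⟨hcnt c, hcnt c', hrel c c'⟩, hadj⟩
      · rintro ⟨x, y, hP, hadj⟩
        exact hinv _ x y _ _ hP ⟨hcnt c, hcnt c', hrel c c'⟩ hadj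
    cases hcolv : col
    · right
      intro x hx y hy hne hadj
      obtain ⟨c, _, rfl⟩ := Finset.mem_image.1 hx
      obtain ⟨c', _, rfl⟩ := Finset.mem_image.1 hy
      have := (key c c' (fun hh => hne (by rw [hh]))).1 hadj
      rw [hcolv] at this
      exact Bool.noConfusion this
    · left
      intro x hx y hy hne
      obtain ⟨c, _, rfl⟩ := Finset.mem_image.1 hx
      obtain ⟨c', _, rfl⟩ := Finset.mem_image.1 hy
      exact (key c c' (fun hh => hne (by rw [hh]))).2 hcolv

/-- The word with the letters `u t` at the positions `e (j, t)` and the letter `a` elsewhere. -/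
noncomputable def winWord {L k : ℕ} (e : Fin L × Fin k ↪ Fin M) (u : Fin k → A) (a : A)
    (j : Fin L) : Fin M → A := fun p =>
  open Classical in if h : ∃ t, e (j, t) = p then u h.choose else a

theorem winWord_apply {L k : ℕ} (e : Fin L × Fin k ↪ Fin M) (u : Fin k → A) (a : A)
    (j : Fin L) (t : Fin k) : winWord e u a j (e (j, t)) = u t := by
  unfold winWord
  have h : ∃ t', e (j, t') = e (j, t) := ⟨t, rfl⟩
  rw [dif_pos h]
  have := e.injective h.choose_spec
  rw [(Prod.mk.inj this).2]

theorem winWord_apply_ne {L k : ℕ} (e : Fin L × Fin k ↪ Fin M) (u : Fin k → A) (a : A)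
    (j : Fin L) (p : Fin M) (hp : ∀ t, e (j, t) ≠ p) : winWord e u a j p = a := by
  unfold winWord
  rw [dif_neg]
  rintro ⟨t, ht⟩
  exact hp t ht

theorem winWord_comp {L k : ℕ} (e : Fin L × Fin k ↪ Fin M) (u : Fin k → A) (a : A)
    (τ : Equiv.Perm (Fin L)) (l : Fin L) :
    winWord e u a (τ l) ∘
      (Equiv.Perm.viaFintypeEmbedding (Equiv.prodCongr τ (Equiv.refl (Fin k))) e) =
      winWord e u a l := by
  funext p
  simp only [Function.comp]
  by_cases hp : p ∈ Set.range e
  · obtain ⟨⟨x, t⟩, rfl⟩ := hp
    rw [Equiv.Perm.viaFintypeEmbedding_apply_image]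
    simp only [Equiv.prodCongr_apply, Prod.map_apply, Equiv.coe_refl, id_eq]
    by_cases hx : x = l
    · subst hx
      rw [winWord_apply, winWord_apply]
    · rw [winWord_apply_ne, winWord_apply_ne]
      · intro t' h
        exact hx (Prod.mk.inj (e.injective h)).1.symm
      · intro t' h
        exact hx (τ.injective (Prod.mk.inj (e.injective h)).1.symm)
  · rw [Equiv.Perm.viaFintypeEmbedding_apply_notMem_range _ _ hp]
    rw [winWord_apply_ne, winWord_apply_ne]
    · intro t h
      exact hp ⟨_, h⟩
    · intro t h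
      exact hp ⟨_, h⟩

theorem exists_perm_two {L : ℕ} {j j' l l' : Fin L} (hj : j ≠ j') (hl : l ≠ l') :
    ∃ τ : Equiv.Perm (Fin L), τ l = j ∧ τ l' = j' := by
  refine ⟨(Equiv.swap l j).trans (Equiv.swap (Equiv.swap l j l') j'), ?_, ?_⟩
  · simp only [Equiv.trans_apply, Equiv.swap_apply_left]
    apply Equiv.swap_apply_of_ne_of_ne
    · intro h
      have h1 : Equiv.swap l j l = Equiv.swap l j l' := by
        rw [Equiv.swap_apply_left]; exact h
      exact hl ((Equiv.swap l j).injective h1)
    · exact hj
  · simp only [Equiv.trans_apply, Equiv.swap_apply_left]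

theorem window_family {V : Finset (Fin M → A)} {G : SimpleGraph (Fin M → A)} (h : SymInv V G)
    {w : Fin M → A} (hw : w ∈ V) {a : A} {k L : ℕ}
    (hk : (univ.filter (fun i => w i ≠ a)).card = k) (hk1 : 1 ≤ k) (hL : L * k ≤ M) :
    ∃ S ⊆ V, S.card = L ∧ Homog G S := by
  classical
  have e : Nonempty ((Fin L × Fin k) ↪ Fin M) := by
    apply Function.Embedding.nonempty_of_card_le
    simpa using hL
  obtain ⟨e⟩ := e
  have ε : Nonempty (Fin k ≃ {i // w i ≠ a}) := by
    apply Fintype.card_eq.1
    rw [Fintype.card_subtype, hk, Fintype.card_fin]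
  obtain ⟨ε⟩ := ε
  let u : Fin k → A := fun t => w (ε t)
  have hu : ∀ t, u t ≠ a := fun t => (ε t).2
  have hne : ∀ j, univ.filter (fun p => winWord e u a j p ≠ a) =
      univ.image (fun t => e (j, t)) := by
    intro j
    ext p
    simp only [mem_filter, mem_univ, true_and, mem_image]
    constructor
    · intro hp
      by_contra hcon
      push Not at hcon
      exact hp (winWord_apply_ne e u a j p hcon)
    · rintro ⟨t, rfl⟩
      rw [winWord_apply]
      exact hu t
  have hcompl : ∀ x : Fin M → A, cnt x a + (univ.filter (fun p => x p ≠ a)).card = M := by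
    intro x
    unfold cnt
    rw [Finset.card_filter_add_card_filter_not]
    simp
  have hcnt : ∀ j s, cnt (winWord e u a j) s = cnt w s := by
    intro j s
    by_cases hs : s = a
    · subst hs
      have h1 := hcompl (winWord e u s j)
      have h2 := hcompl w
      rw [hne j, Finset.card_image_of_injective] at h1
      · rw [Finset.card_univ, Fintype.card_fin] at h1
        rw [hk] at h2
        omega
      · intro t t' htt
        exact (Prod.mk.inj (e.injective htt)).2
    · have h1 : univ.filter (fun p => winWord e u a j p = s) =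
          (univ.filter (fun t => u t = s)).image (fun t => e (j, t)) := by
        ext p
        simp only [mem_filter, mem_univ, true_and, mem_image]
        constructor
        · intro hp
          by_cases hcon : ∃ t, e (j, t) = p
          · obtain ⟨t, rfl⟩ := hcon
            rw [winWord_apply] at hp
            exact ⟨t, hp, rfl⟩
          · push Not at hcon
            rw [winWord_apply_ne e u a j p hcon] at hp
            exact absurd hp.symm hs
        · rintro ⟨t, ht, rfl⟩
          rw [winWord_apply]
          exact ht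
      have h2 : univ.filter (fun i => w i = s) =
          (univ.filter (fun t => u t = s)).image (fun t => ((ε t : {i // w i ≠ a}) : Fin M)) := by
        ext p
        simp only [mem_filter, mem_univ, true_and, mem_image]
        constructor
        · intro hp
          refine ⟨ε.symm ⟨p, by rw [hp]; exact hs⟩, ?_, ?_⟩
          · simp only [u, Equiv.apply_symm_apply]
            exact hp
          · simp
        · rintro ⟨t, ht, rfl⟩
          exact ht
      unfold cnt
      rw [h1, h2, Finset.card_image_of_injective, Finset.card_image_of_injective]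
      · intro t t' htt
        exact ε.injective (Subtype.ext htt)
      · intro t t' htt
        exact (Prod.mk.inj (e.injective htt)).2
  have hmem : ∀ j, winWord e u a j ∈ V := fun j => mem_of_cnt h hw (hcnt j)
  have hinj : Function.Injective (winWord e u a) := by
    intro j j' hjj
    by_contra hcon
    have h1 := congrFun hjj (e (j, ⟨0, hk1⟩))
    rw [winWord_apply, winWord_apply_ne] at h1
    · exact hu _ h1
    · intro t ht
      exact hcon (Prod.mk.inj (e.injective ht)).1.symm
  have htrans : ∀ j j' l l' : Fin L, j ≠ j' → l ≠ l' →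
      G.Adj (winWord e u a j) (winWord e u a j') → G.Adj (winWord e u a l) (winWord e u a l') := by
    intro j j' l l' hj hl hadj
    obtain ⟨τ, rfl, rfl⟩ := exists_perm_two hj hl
    have := h.2 _ (hmem (τ l)) _ (hmem (τ l'))
      (Equiv.Perm.viaFintypeEmbedding (Equiv.prodCongr τ (Equiv.refl (Fin k))) e)
    rw [winWord_comp, winWord_comp] at this
    exact this.2 hadj
  refine ⟨univ.image (winWord e u a), ?_, ?_, ?_⟩
  · intro x hx
    obtain ⟨j, _, rfl⟩ := Finset.mem_image.1 hx
    exact hmem j
  · rw [Finset.card_image_of_injective _ hinj]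
    simp
  · by_cases hex : ∃ j j' : Fin L, j ≠ j' ∧ G.Adj (winWord e u a j) (winWord e u a j')
    · obtain ⟨j, j', hj, hadj⟩ := hex
      left
      intro x hx y hy hxy
      obtain ⟨l, _, rfl⟩ := Finset.mem_image.1 hx
      obtain ⟨l', _, rfl⟩ := Finset.mem_image.1 hy
      exact htrans j j' l l' hj (fun hh => hxy (by rw [hh])) hadj
    · right
      push Not at hex
      intro x hx y hy hxy
      obtain ⟨l, _, rfl⟩ := Finset.mem_image.1 hx
      obtain ⟨l', _, rfl⟩ := Finset.mem_image.1 hy
      exact hex l l' (fun hh => hxy (by rw [hh]))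

end Families

end Pool.Agent.ExpRam
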